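import Pool.Agent.Helper71.BM.Basic

set_option autoImplicit false

namespace Pool.Agent.Helper71.BM

open Finset ErdPos

/-- chain property of the concatenation of nonempty blocks -/
theorem join_chain {V : Type} {r : V → V → Prop} : ∀ (B : List (List V)),
    (∀ b ∈ B, b ≠ [] ∧ b.IsChain r) →
    (∀ i, i + 1 < B.length → ∀ b b' x y, B[i]? = some b → B[i + 1]? = some b' →
      b.getLast? = some x → b'.head? = some y → r x y) → B.flatten.IsChain r := by
  intro B
  induction B with
  | nil => intro _ _; simp
  | cons b B ih =>
    intro h1 h2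
    rw [List.flatten_cons, List.isChain_append]
    refine ⟨(h1 b (by simp)).2, ih (fun c hc => h1 c (by simp [hc])) ?_, ?_⟩
    · intro i hi c c' x y hc hc' hx hy
      exact h2 (i + 1) (by simpa using hi) c c' x y (by simpa using hc) (by simpa using hc') hx hy
    · intro x hx y hy
      cases B with
      | nil => simp at hy
      | cons b' B =>
        have hb' : b' ≠ [] := (h1 b' (by simp)).1
        have hy2 : b'.head? = some y := by
          rw [List.flatten_cons, List.head?_append] at hy
          cases b' with
          | nil => exact absurd rfl hb'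
          | cons z b' => simpa using hy
        exact h2 0 (by simp) b b' x y (by simp) (by simp) hx hy2

theorem join_head {V : Type} : ∀ (B : List (List V)) (b : List V) (y : V),
    B.head? = some b → b.head? = some y → B.flatten.head? = some y := by
  intro B b y h1 h2
  cases B with
  | nil => simp at h1
  | cons c B =>
    simp at h1
    subst h1
    rw [List.flatten_cons, List.head?_append, h2]
    rfl

theorem join_last {V : Type} (B : List (List V)) (b : List V) (y : V)
    (h1 : B.getLast? = some b) (h2 : b.getLast? = some y) : B.flatten.getLast? = some y := by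
  rw [List.getLast?_eq_some_iff] at h1
  obtain ⟨B', rfl⟩ := h1
  rw [List.flatten_append, List.getLast?_append]
  simp [h2]

theorem st_JOIN : ST_JOIN := by
  intro V G B hB h1 hnd h3 hadj
  have hlen : 0 < B.length := List.length_pos_iff.2 hB
  obtain ⟨b0, hb0⟩ : ∃ b0, B.head? = some b0 := by
    cases B with
    | nil => exact absurd rfl hB
    | cons b B => exact ⟨b, rfl⟩
  obtain ⟨b1, hb1⟩ : ∃ b1, B.getLast? = some b1 :=
    ⟨B.getLast hB, List.getLast?_eq_some_getLast hB⟩
  have hm0 : b0 ∈ B := List.mem_of_mem_head? (by rw [hb0]; rfl)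
  have hm1 : b1 ∈ B := List.mem_of_mem_getLast? (by rw [hb1]; rfl)
  obtain ⟨y, hy⟩ : ∃ y, b0.head? = some y := by
    have := (h1 b0 hm0).1
    cases b0 with
    | nil => exact absurd rfl this
    | cons z _ => exact ⟨z, rfl⟩
  obtain ⟨x, hx⟩ : ∃ x, b1.getLast? = some x :=
    ⟨b1.getLast (h1 b1 hm1).1, List.getLast?_eq_some_getLast _⟩
  refine ⟨h3, y, x, ⟨join_head B b0 y hb0 hy, join_last B b1 x hb1 hx, hnd, ?_⟩, ?_⟩
  · apply join_chain B h1
    intro i hi b b' x y hb hb' hx hy
    refine hadj i (by omega) b b' x y hb ?_ hx hy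
    rw [Nat.mod_eq_of_lt hi]
    exact hb'
  · refine hadj (B.length - 1) (by omega) b1 b0 x y ?_ ?_ hx hy
    · rw [← List.getLast?_eq_getElem?]; exact hb1
    · rw [Nat.sub_add_cancel hlen, Nat.mod_self, ← List.head?_eq_getElem?]; exact hb0

end Pool.Agent.Helper71.BM
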