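import Pool.Agent.Helper71.BM.Basic

set_option autoImplicit false

namespace Pool.Agent.Helper71.BM

open Finset ErdPos

theorem st_LCW1 : ST_LCW1 := by
  intro V G u p hp
  cases p with
  | nil => exact absurd rfl hp.ne_nil
  | @cons _ v _ h q =>
    have h3 := hp.three_le_length
    have hnd := hp.support_nodup
    rw [SimpleGraph.Walk.support_cons, List.tail_cons] at hnd
    refine ⟨q.support, ⟨?_, v, u, ⟨?_, ?_, hnd, ?_⟩, h⟩, ?_, ?_⟩
    · rw [SimpleGraph.Walk.length_support]
      simpa using h3
    · rw [← SimpleGraph.Walk.cons_tail_support]; rfl
    · have := q.getLast_support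
      rw [List.getLast?_eq_some_getLast q.support_ne_nil, this]
    · exact q.isChain_adj_support
    · rw [SimpleGraph.Walk.length_support]; rfl
    · intro x
      rw [SimpleGraph.Walk.support_cons, List.mem_cons]
      constructor
      · exact Or.inr
      · rintro (rfl | hx)
        · exact q.end_mem_support
        · exact hx

end Pool.Agent.Helper71.BM
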