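import Pool.Agent.Helper71.BM.Basic

set_option autoImplicit false

namespace Pool.Agent.Helper71.BM

open Finset ErdPos

theorem st_LCW2 : ST_LCW2 := by
  intro V G l ⟨h3, a, b, ⟨h1, h2, hnd, hch⟩, hadj⟩
  have hne : l ≠ [] := by
    rintro rfl
    simp at h1
  have ha : l.head hne = a := by
    rw [List.head?_eq_some_head hne] at h1
    exact Option.some.inj h1
  have hb : l.getLast hne = b := by
    rw [List.getLast?_eq_some_getLast hne] at h2
    exact Option.some.inj h2
  subst ha hb
  set w := SimpleGraph.Walk.ofSupport l hne hch with hw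
  have hsup : w.support = l := SimpleGraph.Walk.support_ofSupport hne hch
  have hlen : w.length + 1 = l.length := by
    have := SimpleGraph.Walk.length_ofSupport hne hch
    rw [← hw] at this
    omega
  have hpath : w.IsPath := by
    rw [SimpleGraph.Walk.isPath_def, hsup]; exact hnd
  refine ⟨_, SimpleGraph.Walk.cons hadj w, ?_, ?_, ?_⟩
  · rw [SimpleGraph.Walk.cons_isCycle_iff]
    refine ⟨hpath, fun hmem => ?_⟩
    rw [Sym2.eq_swap] at hmem
    have := hpath.length_eq_one_of_mem_edges hmem
    omega
  · rw [SimpleGraph.Walk.length_cons, hlen]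
  · intro x
    rw [SimpleGraph.Walk.support_cons, List.mem_cons, hsup]
    constructor
    · rintro (rfl | hx)
      · exact List.getLast_mem hne
      · exact hx
    · exact Or.inr

end Pool.Agent.Helper71.BM
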